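import Pool.Agent.V8H21.SQ.Main2

set_option autoImplicit false

/-!
# Sums of a prime and a square `m²` with `m` in an arbitrary set: only local obstructions, for almost all `n`

Let `w` be an arbitrary function on the positive integers with `|w| ≤ 1`, for instance the indicator function of an
arbitrary set `M`. For all but `N / log^U N` of the `n ≤ N`, and for all `y` at the same time, the sum of `w(m)` over the
`m ≤ y` for which `n - m²` is a prime is the sum predicted by the sieve: the sum over the `m ≤ y` for which `n - m²` has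
no prime factor `≤ z`, with the weights `w(m) / log (n - m²)`, divided by the product of `1 - 1/p` over the primes
`p ≤ z`, up to an error `√N / log^C N`; here `z` is any number between two powers of `log N`. So for almost all `n` the
equation `n = p + m²`, `m ∈ M`, has solutions, in the expected number, unless this is prevented by small primes.

The bilinear estimate behind it (`Pool.Agent.H373R2.T7.bil_lam`: primes minus their sieve model have small exponential
sums everywhere, and the squares have nearly minimal additive energy) is due to the authors of the starting files.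
-/

namespace Pool.Agent.Results.MP_d48457_nt.ArbitrarySetsOfSquares

open Finset

/-- The product of `1 - 1/p` over the primes `p ≤ z`. -/
noncomputable def V (z : ℕ) : ℝ := ∏ p ∈ (Icc 1 z).filter Nat.Prime, (1 - 1 / (p : ℝ))

/-- `k` has no prime factor `≤ z`. (Below `k = n - m ^ 2` is the truncated difference, which is `0` for `m ^ 2 ≥ n`;
then this is false, since `z ≥ 2`.) -/
def Rough (z k : ℕ) : Prop := ∀ p ∈ (Icc 1 z).filter Nat.Prime, ¬ p ∣ k

/-- The sum of `w m` over the `1 ≤ m ≤ y` for which `n - m ^ 2` is a prime. -/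
noncomputable def primeSum (w : ℕ → ℂ) (n y : ℕ) : ℂ := ∑ m ∈ (Icc 1 y).filter (fun m => (n - m ^ 2).Prime), w m

open Classical in
/-- The predicted value of this sum: the sum of `w m / log (n - m ^ 2)` over the `1 ≤ m ≤ y` for which `n - m ^ 2` has
no prime factor `≤ z`, divided by `V z`. -/
noncomputable def predicted (w : ℕ → ℂ) (z n y : ℕ) : ℂ :=
  (((V z)⁻¹ : ℝ) : ℂ) * ∑ m ∈ (Icc 1 y).filter (fun m => Rough z (n - m ^ 2)),
    w m * ((1 / Real.log ((n - m ^ 2 : ℕ) : ℝ) : ℝ) : ℂ)

/-- The prediction holds for all `y` at the same time, with an error at most `√N / log^C N`. -/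
def Good (C N z : ℕ) (w : ℕ → ℂ) (n : ℕ) : Prop :=
  ∀ y : ℕ, ‖primeSum w n y - predicted w z n y‖ ≤ Real.sqrt N / Real.log N ^ C

open Classical in
/-- The number of the `n ≤ N` for which this fails. -/
noncomputable def exceptions (C N z : ℕ) (w : ℕ → ℂ) : ℕ := ((Icc 1 N).filter (fun n => ¬ Good C N z w n)).card

open Classical in
/-- The number of the `m ∈ M` with `1 ≤ m` and `m ^ 2 < n` for which `n - m ^ 2` has no prime factor `≤ z`. -/
noncomputable def localCount (M : Set ℕ) (z n : ℕ) : ℕ :=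
  ((Icc 1 n).filter (fun m => m ∈ M ∧ m ^ 2 < n ∧ Rough z (n - m ^ 2))).card

/-- `n` is the sum of a prime and the square of a positive element of `M`. -/
def Representable (M : Set ℕ) (n : ℕ) : Prop := ∃ p m : ℕ, p.Prime ∧ m ∈ M ∧ 1 ≤ m ∧ n = p + m ^ 2

open Classical in
/-- The number of the `n ≤ N` which are not representable although their local count is at least `√N / log^C N`. -/
noncomputable def missed (C N z : ℕ) (M : Set ℕ) : ℕ :=
  ((Icc 1 N).filter (fun n => Real.sqrt N / Real.log N ^ C ≤ localCount M z n ∧ ¬ Representable M n)).card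

open Pool.Agent.V8H21.SQ in
lemma good_iff (C N z : ℕ) (w : ℕ → ℂ) (n : ℕ) :
    Good C N z w n ↔ ∀ y : ℕ, ‖cerr w z y n‖ ≤ Real.sqrt N / Real.log N ^ C := by
  unfold Good
  have h : ∀ y, primeSum w n y - predicted w z n y = cerr w z y n := by
    intro y
    unfold primeSum predicted cerr V Rough Pool.Agent.H373R2.T7.Vz Pool.Agent.H373R2.T7.pz
    congr!
  simp only [h]

open Classical in
lemma missed_good {C N z : ℕ} {M : Set ℕ} {n : ℕ} (hN : 3 ≤ N) (hL : 4 ≤ Real.log N) (hLC : 10 * Real.log N ^ (C + 2) ≤ Real.sqrt N)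
    (hV1 : V z ≤ 1) (hV0 : 0 < V z) (hn : n ≤ N)
    (h : ∀ y : ℕ, ‖primeSum (fun m => if m ∈ M then 1 else 0) n y - predicted (fun m => if m ∈ M then 1 else 0) z n y‖ ≤
      Real.sqrt N / Real.log N ^ (C + 2))
    (hc : Real.sqrt N / Real.log N ^ C ≤ localCount M z n) : Representable M n := by
  by_contra hrep
  have h1 := h n
  have hL0 : 0 < Real.log N := by linarith
  have h2 : primeSum (fun m => if m ∈ M then 1 else 0) n n = 0 := by
    unfold primeSum
    apply sum_eq_zero
    intro m hm
    rw [mem_filter, mem_Icc] at hm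
    split_ifs with h3
    · exfalso
      apply hrep
      refine ⟨n - m ^ 2, m, hm.2, h3, hm.1.1, ?_⟩
      have := hm.2.pos
      omega
    · rfl
  rw [h2, zero_sub, norm_neg] at h1
  have h3 : predicted (fun m => if m ∈ M then 1 else 0) z n n =
      (((V z)⁻¹ * ∑ m ∈ (Icc 1 n).filter (fun m => Rough z (n - m ^ 2)),
        if m ∈ M then 1 / Real.log ((n - m ^ 2 : ℕ) : ℝ) else 0 : ℝ) : ℂ) := by
    unfold predicted
    rw [Complex.ofReal_mul, Complex.ofReal_sum]
    congr 1
    refine sum_congr rfl fun m _ => ?_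
    show (if m ∈ M then (1 : ℂ) else 0) * ((1 / Real.log ((n - m ^ 2 : ℕ) : ℝ) : ℝ) : ℂ) =
      ((if m ∈ M then 1 / Real.log ((n - m ^ 2 : ℕ) : ℝ) else 0 : ℝ) : ℂ)
    by_cases hm : m ∈ M
    · rw [if_pos hm, if_pos hm, one_mul]
    · rw [if_neg hm, if_neg hm, zero_mul, Complex.ofReal_zero]
  rw [h3, Complex.norm_real] at h1
  have hlognn : ∀ k : ℕ, 0 ≤ 1 / Real.log (k : ℝ) := fun k => div_nonneg zero_le_one (Real.log_natCast_nonneg _)
  have h4 : ∀ m, 0 ≤ (if m ∈ M then 1 / Real.log ((n - m ^ 2 : ℕ) : ℝ) else 0 : ℝ) := by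
    intro m
    split_ifs
    · exact hlognn _
    · exact le_rfl
  have h5 : ((localCount M z n : ℝ) - 1) / Real.log N ≤ ∑ m ∈ (Icc 1 n).filter (fun m => Rough z (n - m ^ 2)),
      (if m ∈ M then 1 / Real.log ((n - m ^ 2 : ℕ) : ℝ) else 0 : ℝ) := by
    set S := (Icc 1 n).filter (fun m => m ∈ M ∧ m ^ 2 < n ∧ Rough z (n - m ^ 2)) with hS
    set S1 := S.filter (fun m => n - m ^ 2 = 1) with hS1
    have hS1c : S1.card ≤ 1 := by
      rw [card_le_one]
      intro i hi j hj
      rw [hS1, mem_filter] at hi hj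
      have : i ^ 2 = j ^ 2 := by omega
      exact Nat.pow_left_injective (by norm_num : 2 ≠ 0) this
    have hcard : S.card ≤ (S \ S1).card + 1 := by
      have := card_sdiff_add_card_eq_card (filter_subset (fun m => n - m ^ 2 = 1) S)
      rw [← hS1] at this
      omega
    have hsub : S \ S1 ⊆ (Icc 1 n).filter (fun m => Rough z (n - m ^ 2)) := by
      intro m hm
      rw [mem_sdiff, hS, mem_filter] at hm
      rw [mem_filter]
      exact ⟨hm.1.1, hm.1.2.2.2⟩
    refine le_trans ?_ (sum_le_sum_of_subset_of_nonneg hsub fun m _ _ => h4 m)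
    have h6 : ∀ m ∈ S \ S1, 1 / Real.log N ≤ (if m ∈ M then 1 / Real.log ((n - m ^ 2 : ℕ) : ℝ) else 0 : ℝ) := by
      intro m hm
      rw [mem_sdiff] at hm
      obtain ⟨hmS, hm1⟩ := hm
      have hmS' := hmS
      rw [hS, mem_filter] at hmS
      rw [if_pos hmS.2.1]
      have hk : 2 ≤ n - m ^ 2 := by
        have h7 : n - m ^ 2 ≠ 1 := fun h8 => hm1 (by rw [hS1, mem_filter]; exact ⟨hmS', h8⟩)
        have := hmS.2.2.1
        omega
      apply one_div_le_one_div_of_le
      · apply Real.log_pos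
        have : (2 : ℝ) ≤ ((n - m ^ 2 : ℕ) : ℝ) := by exact_mod_cast hk
        linarith
      · apply Real.log_le_log
        · have : (2 : ℝ) ≤ ((n - m ^ 2 : ℕ) : ℝ) := by exact_mod_cast hk
          linarith
        · exact_mod_cast (Nat.sub_le n (m ^ 2)).trans hn
    have h7 := sum_le_sum h6
    rw [sum_const, nsmul_eq_mul] at h7
    refine le_trans ?_ h7
    rw [mul_one_div]
    apply div_le_div_of_nonneg_right _ hL0.le
    have : (localCount M z n : ℝ) ≤ ((S \ S1).card : ℝ) + 1 := by
      unfold localCount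
      exact_mod_cast hcard
    linarith
  have h6 : ((localCount M z n : ℝ) - 1) / Real.log N ≤ (V z)⁻¹ * ∑ m ∈ (Icc 1 n).filter (fun m => Rough z (n - m ^ 2)),
      (if m ∈ M then 1 / Real.log ((n - m ^ 2 : ℕ) : ℝ) else 0 : ℝ) := by
    refine h5.trans (le_mul_of_one_le_left (sum_nonneg fun m _ => h4 m) ?_)
    exact (one_le_inv₀ hV0).2 hV1
  have h7 := (h6.trans (le_abs_self _)).trans (Real.norm_eq_abs _ ▸ h1)
  have h8 : (Real.sqrt N / Real.log N ^ C - 1) / Real.log N ≤ Real.sqrt N / Real.log N ^ (C + 2) := by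
    refine le_trans ?_ h7
    apply div_le_div_of_nonneg_right _ hL0.le
    linarith
  have hP : 0 < Real.log N ^ C := by positivity
  rw [div_le_div_iff₀ hL0 (by positivity)] at h8
  have e : (Real.sqrt N / Real.log N ^ C - 1) * Real.log N ^ (C + 2) = Real.sqrt N * Real.log N ^ 2 - Real.log N ^ (C + 2) := by
    rw [pow_add]
    field_simp
  rw [e] at h8
  have hs : 0 < Real.sqrt N := Real.sqrt_pos.2 (by exact_mod_cast (by omega : 0 < N))
  have h9 : 12 * Real.sqrt N ≤ Real.sqrt N * Real.log N ^ 2 - Real.sqrt N * Real.log N := by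
    have h10 : 12 ≤ Real.log N ^ 2 - Real.log N := by nlinarith
    have := mul_le_mul_of_nonneg_left h10 hs.le
    linarith
  linarith

/-- **Arbitrary weights and arbitrary sets.** For all `C` and `U` there is `B` such that for all `E`, all large `N` and
every `z` with `log^B N ≤ z ≤ log^E N`:
* for every `w` with `|w| ≤ 1` the prediction for the sum of `w(m)` over the solutions `m ≤ y` of `n = p + m²` holds, for
  all `y` at the same time, for all but at most `N / log^U N` of the `n ≤ N`;
* for every set `M` all but at most `N / log^U N` of the `n ≤ N` for which there are at least `√N / log^C N` elements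
  `m ∈ M`, `m² < n`, such that `n - m²` has no prime factor `≤ z`, are of the form `p + m²`, `m ∈ M`. -/
theorem result (C U : ℕ) : ∃ B : ℕ, ∀ E : ℕ, ∃ N₀ : ℕ, ∀ N : ℕ, N₀ ≤ N →
    ∀ z : ℕ, Real.log N ^ B ≤ z → (z : ℝ) ≤ Real.log N ^ E → 2 ≤ z ∧
      (∀ w : ℕ → ℂ, (∀ m, ‖w m‖ ≤ 1) → (exceptions C N z w : ℝ) ≤ N / Real.log N ^ U) ∧
      (∀ M : Set ℕ, (missed C N z M : ℝ) ≤ N / Real.log N ^ U) := by
  classical
  obtain ⟨B, h0⟩ := Pool.Agent.V8H21.SQ.main2 (C + 2) U
  refine ⟨B, fun E => ?_⟩
  obtain ⟨N1, h1⟩ := h0 E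
  obtain ⟨N3, h3⟩ := Pool.Agent.H373R2.T7.ev_log' (C + 2) 10
  obtain ⟨N5, h5⟩ := Pool.Agent.H373R2.T7.ev_L' 4
  refine ⟨N1 + N3 + N5, fun N hN z hz1 hz2 => ?_⟩
  obtain ⟨a1, a2, a3, a4⟩ := h1 N (by omega) z hz1 hz2
  have b3 := h3 N (by omega)
  have b5 := h5 N (by omega)
  refine ⟨a1, fun w hw => le_trans ?_ (a4 w hw), fun M => le_trans ?_ (a4 (fun m => if m ∈ M then 1 else 0) ?_)⟩
  · unfold exceptions
    have hsub : (Icc 1 N).filter (fun n => ¬ Good C N z w n) ⊆
        (Icc 1 N).filter (fun n => ¬ ∀ y : ℕ, ‖Pool.Agent.V8H21.SQ.cerr w z y n‖ ≤ Real.sqrt N / Real.log N ^ (C + 2)) := by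
      intro n hn
      rw [mem_filter] at hn ⊢
      refine ⟨hn.1, fun h => hn.2 ?_⟩
      rw [good_iff]
      intro y
      refine (h y).trans ?_
      apply div_le_div_of_nonneg_left (Real.sqrt_nonneg _) (by positivity)
      exact pow_le_pow_right₀ (by linarith) (by omega)
    exact_mod_cast card_le_card hsub
  · unfold missed
    have hsub : (Icc 1 N).filter (fun n => Real.sqrt N / Real.log N ^ C ≤ localCount M z n ∧ ¬ Representable M n) ⊆
        (Icc 1 N).filter (fun n => ¬ ∀ y : ℕ, ‖Pool.Agent.V8H21.SQ.cerr (fun m => if m ∈ M then 1 else 0) z y n‖ ≤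
          Real.sqrt N / Real.log N ^ (C + 2)) := by
      intro n hn
      rw [mem_filter] at hn ⊢
      refine ⟨hn.1, fun h => hn.2.2 ?_⟩
      rw [← good_iff] at h
      exact missed_good a3 b5 b3 (Pool.Agent.H373R2.T7.Vz_le_one z) (Pool.Agent.H373R2.T7.Vz_pos z) (mem_Icc.1 hn.1).2 h hn.2.1
    exact_mod_cast card_le_card hsub
  · intro m
    split_ifs <;> simp

end Pool.Agent.Results.MP_d48457_nt.ArbitrarySetsOfSquares
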