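import Pool.Agent.V8H21.SQ.Dens4

set_option autoImplicit false

/-!
# Sums of a dense set of primes and the squares of a dense set of integers

Let `A` be a set of primes of relative lower density `α > 0`, and let `M` be a set of positive integers of lower density
`δ`. As `δ → 0` the set of the sums `p + m²`, `p ∈ A`, `m ∈ M`, has lower density at least
`(1 - o(1)) α / (e^γ log log (1/δ))`, and this is asymptotically best possible: for `A` = all primes and `M` = the
multiples of a product of small primes the upper density is at most `(1 + o(1)) / (e^γ log log (1/δ))`. So for EVERY set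
`M` of positive density many integers are of the form `p + m²`, `m ∈ M`. This is the analogue, for the sums of a prime
and a square, of the theorem of Matomäki on the sums of two dense sets of primes (which improves those of Ramaré and
Ruzsa and of Chipeniuk and Hamel).

Proof. In a class modulo the product `W` of the primes `≤ w = C log (1/δ)` the set `M` has at least the density `δ`. The
numbers of representations by this part of `M` (and all primes) are almost constant, in mean square, on the classes in
which they are not zero: the primes are replaced by their sieve model (`Pool.Agent.H373R2.T7.bil_lam`), and the mean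
square of the model is the mean of `∏_{q ∣ m² - m'², q > w} (1 - 1/q)⁻¹` over the pairs `m, m'`, which is close to `1`,
since its moment of order `w` over all pairs of the class is bounded. So no integer is hit too often by the sums of
elements of `A` and of squares of elements of this part of `M`, outside a set which is negligible in the mean.
-/

namespace Pool.Agent.Results.MP_d48457_nt.DensePrimesDenseSquares

open Finset Filter

/-- `e^γ`, `γ` the Euler–Mascheroni constant. -/
noncomputable def expGamma : ℝ := Real.exp Real.eulerMascheroniConstant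

/-- The set of the sums `a + m²`, `a ∈ A`, `m ∈ M`, for finite sets `A` and `M`. -/
def sumset (A M : Finset ℕ) : Finset ℕ := (A ×ˢ M).image (fun q => q.1 + q.2 ^ 2)

open Classical in
/-- For all large `N` the set `A` contains at least `α N / log N` primes up to `N`. -/
def PrimesDense (α : ℝ) (A : Set ℕ) : Prop :=
  ∀ᶠ N : ℕ in atTop, α * (N / Real.log N) ≤ (((Icc 1 N).filter (fun p => p.Prime ∧ p ∈ A)).card : ℝ)

open Classical in
/-- For all large `Y` the set `M` contains at least `δ Y` of the integers `1, ..., Y`. -/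
def Dense (δ : ℝ) (M : Set ℕ) : Prop :=
  ∀ᶠ Y : ℕ in atTop, δ * Y ≤ (((Icc 1 Y).filter (fun m => m ∈ M)).card : ℝ)

open Classical in
/-- The number of the `n ≤ X` of the form `n = p + m²` with a prime `p ∈ A` and `m ∈ M`, `m ≥ 1`. -/
noncomputable def count (A M : Set ℕ) (X : ℕ) : ℕ :=
  ((Icc 1 X).filter (fun n => ∃ p m : ℕ, p.Prime ∧ p ∈ A ∧ m ∈ M ∧ 1 ≤ m ∧ n = p + m ^ 2)).card

/-- **Sums of a dense set of primes and the squares of a dense set.** Let `ε > 0`.
* For every `α > 0` there is `δ₀ > 0` such that for `0 < δ ≤ δ₀`: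
  - (finite form) for all `K`, all large `N` and all `Y` with `Y² ≤ N ≤ K Y²`: if `A` consists of at least `α N / log N`
    primes up to `N` and `M` of at least `δ Y` integers between `1` and `Y`, then there are at least
    `(1 - ε) α N / (e^γ log log (1/δ))` sums `a + m²`, `a ∈ A`, `m ∈ M`;
  - if `A` contains at least `α N / log N` primes up to `N` for all large `N`, and `M` at least `δ Y` positive integers
    up to `Y` for all large `Y`, then for all large `X` at least `(1 - ε) α X / (e^γ log log (1/δ))` of the integers up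
    to `X` are of the form `p + m²`, `p ∈ A`, `m ∈ M`.
* There is `δ₀ > 0` such that for `0 < δ ≤ δ₀` there is a set `M` with at least `δ Y` positive elements up to `Y`, for
  all large `Y`, such that for all large `X` at most `(1 + ε) X / (e^γ log log (1/δ))` of the integers up to `X` are the
  sum of any prime and the square of a positive element of `M`. -/
theorem result (ε : ℝ) (hε : 0 < ε) :
    (∀ α : ℝ, 0 < α → ∃ δ₀ : ℝ, 0 < δ₀ ∧ δ₀ < Real.exp (-1) ∧ ∀ δ : ℝ, 0 < δ → δ ≤ δ₀ →
      (∀ K : ℕ, ∃ N₀ : ℕ, ∀ N : ℕ, N₀ ≤ N → ∀ Y : ℕ, Y ^ 2 ≤ N → N ≤ K * Y ^ 2 → ∀ A M : Finset ℕ,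
        (∀ a ∈ A, a.Prime ∧ a ≤ N) → M ⊆ Icc 1 Y →
        α * (N / Real.log N) ≤ (A.card : ℝ) → δ * Y ≤ (M.card : ℝ) →
        (1 - ε) * α / (expGamma * Real.log (Real.log (1 / δ))) * N ≤ ((sumset A M).card : ℝ)) ∧
      (∀ A M : Set ℕ, PrimesDense α A → Dense δ M → ∀ᶠ X : ℕ in atTop,
        (1 - ε) * α / (expGamma * Real.log (Real.log (1 / δ))) * X ≤ (count A M X : ℝ))) ∧
    (∃ δ₀ : ℝ, 0 < δ₀ ∧ δ₀ < Real.exp (-1) ∧ ∀ δ : ℝ, 0 < δ → δ ≤ δ₀ →
      ∃ M : Set ℕ, Dense δ M ∧ ∀ᶠ X : ℕ in atTop,
        (count Set.univ M X : ℝ) ≤ (1 + ε) / (expGamma * Real.log (Real.log (1 / δ))) * X) := by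
  refine ⟨fun α hα => ?_, ?_⟩
  · obtain ⟨d1, h1, h2, h3⟩ := Pool.Agent.V8H21.SQ.dens_all hε hα
    obtain ⟨d2, h4, h5, h6⟩ := Pool.Agent.V8H21.SQ.dens_inf hε hα
    refine ⟨min d1 d2, lt_min h1 h4, (min_le_left _ _).trans_lt h2, fun δ hδ hδ0 => ⟨fun K => ?_, ?_⟩⟩
    · obtain ⟨N0, h7⟩ := h3 δ hδ (hδ0.trans (min_le_left _ _)) K
      refine ⟨N0, fun N hN Y hY1 hY2 A M hA hM hAc hMc => ?_⟩
      have h8 := h7 N hN Y hY1 hY2 A M hA hM hAc hMc
      refine le_trans (le_of_eq ?_) h8
      unfold expGamma Pool.Agent.V8H21.SQ.Gm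
      ring
    · exact h6 δ hδ (hδ0.trans (min_le_right _ _))
  · exact Pool.Agent.V8H21.SQ.dens_opt hε

end Pool.Agent.Results.MP_d48457_nt.DensePrimesDenseSquares
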