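import Pool.Agent.V8H2.QW.Num

/-!
# A small square plus a product of two primes, for all but few integers

For all but `X^(2/3+ε) + X^(12/11+ε) / M` of the integers `N ≤ X` which exceed `M² + 1`, the number of the
`m ≤ M` for which `N - m²` has at most two prime factors, all of them at least `X^(1/8)`, has the expected order of
magnitude. So the square may be as small as `X^(2 ξ)`, `m ≤ M = X^ξ`, for every `ξ > 1/11`, and for `M = √(X/2)` the number
of the exceptions is `O(X^(2/3+ε))`. For products of at most three primes the exceptions are `X^(2/3+ε) + X^(1+ε) / M`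
in number, and every `ξ > 0` is allowed.

The proof uses the linear sieve with Richert's logarithmic weights; the mean square over the `N` of the error of
level `D` is bounded by the large sieve in its dual form, for `D² = X^(1-ε) M`.
-/

set_option autoImplicit false

open Finset

namespace Pool.Agent.Results.MP_d48457_nt.SmallSquarePlusAlmostPrime

/-- the number of the residues `n` modulo `p` with `n² ≡ N` -/
def rootCount (N p : ℕ) : ℕ := #((range p).filter (fun n : ℕ => (p : ℤ) ∣ (N : ℤ) - (n : ℤ) ^ 2))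

/-- the product `∏_{p ≤ M} (1 - ρ(p) / p)` over the primes, `ρ(p)` being the number of the roots modulo `p` -/
noncomputable def localProduct (N M : ℕ) : ℝ :=
  ∏ p ∈ (Icc 1 M).filter Nat.Prime, (1 - (rootCount N p : ℝ) / p)

open Classical in
/-- the number of the integers `1 ≤ m ≤ M` with `m² + 2 ≤ N` such that `N - m²` has at most `r` prime factors
(counted with multiplicity), all of them at least `w` -/
noncomputable def representations (N r : ℕ) (w : ℝ) (M : ℕ) : ℕ :=
  #((Icc 1 M).filter (fun m : ℕ => m ^ 2 + 2 ≤ N ∧ (N - m ^ 2).primeFactorsList.length ≤ r ∧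
    ∀ p : ℕ, p.Prime → p ∣ N - m ^ 2 → w ≤ p))

open Classical in
/-- **A small square plus an almost prime, few exceptions.** Let `β > 0` and `ε > 0`, and let `r = 2`, `θ = 12/11` or
`r = 3`, `θ = 1`. There are `δ > 0` and `X₀` such that for all `X ≥ X₀` and all natural numbers `M ≥ X^β`: for all
but at most `X^(2/3 + ε) + X^(θ + ε) / M` of the integers `N` with `M² + 2 ≤ N ≤ X` there are at least
`δ M ∏_{p ≤ M} (1 - ρ(p) / p)` integers `1 ≤ m ≤ M` such that `N - m² ≥ 2` has at most `r` prime factors, all of them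
at least `X^(1/8)`. -/
theorem result (β ε : ℝ) (hβ : 0 < β) (hε : 0 < ε) (r : ℕ) (θ : ℝ)
    (hr : (r = 2 ∧ θ = 12 / 11) ∨ (r = 3 ∧ θ = 1)) :
    ∃ δ : ℝ, 0 < δ ∧ ∃ X₀ : ℕ, ∀ X : ℕ, X₀ ≤ X → ∀ M : ℕ, (X : ℝ) ^ β ≤ M →
      (#((Icc (M ^ 2 + 2) X).filter (fun N : ℕ =>
        (representations N r ((X : ℝ) ^ (1 / 8 : ℝ)) M : ℝ) < δ * (M * localProduct N M))) : ℝ) ≤
        (X : ℝ) ^ (2 / 3 + ε) + (X : ℝ) ^ (θ + ε) / M := by
  obtain ⟨δ, hδ, X₀, h⟩ := Pool.Agent.V8H2.QW.fin 1 β ε hβ hε r θ hr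
  refine ⟨δ, hδ, max X₀ 1, fun X hX M hM => ?_⟩
  have hX1 : 1 ≤ X := (le_max_right _ _).trans hX
  have hX0 : (0 : ℝ) < X := by exact_mod_cast hX1
  have hM0 : (0 : ℝ) < M := lt_of_lt_of_le (by positivity) hM
  rcases lt_or_ge X (M ^ 2 + 2) with hlt | hge
  · rw [Icc_eq_empty (by omega), filter_empty, card_empty, Nat.cast_zero]
    positivity
  have h1 := h X ((le_max_left _ _).trans hX) (-1) 0 M (by norm_num) (by norm_num) hM (by
    have : (M : ℝ) ^ 2 + 2 ≤ X := by exact_mod_cast hge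
    push_cast
    rw [abs_neg, abs_one, abs_zero]
    linarith)
  refine le_trans ?_ h1
  have h2 : #((Icc (M ^ 2 + 2) X).filter (fun N : ℕ =>
        (representations N r ((X : ℝ) ^ (1 / 8 : ℝ)) M : ℝ) < δ * (M * localProduct N M))) ≤
      #((Icc (-(X : ℤ)) (X : ℤ)).filter (fun k =>
        (Pool.Agent.V8H2.QW.apc (-1) 0 k r ((X : ℝ) ^ (1 / 8 : ℝ)) M : ℝ) <
          δ * M * Pool.Agent.Y882.PX.loc (Pool.Agent.V8H2.QW.FQ (-1) 0) k M)) := by
    apply card_le_card_of_injOn (fun N : ℕ => (N : ℤ))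
    · intro N hN
      rw [mem_coe, mem_filter, mem_Icc] at hN
      obtain ⟨⟨hN1, hN2⟩, hN3⟩ := hN
      rw [mem_coe, mem_filter, mem_Icc]
      show (-(X : ℤ) ≤ (N : ℤ) ∧ (N : ℤ) ≤ (X : ℤ)) ∧ _
      refine ⟨⟨by omega, by omega⟩, ?_⟩
      have e1 : localProduct N M =
          Pool.Agent.Y882.PX.loc (Pool.Agent.V8H2.QW.FQ (-1) 0) (N : ℤ) M := by
        unfold localProduct Pool.Agent.Y882.PX.loc
        apply prod_congr rfl
        intro p _
        rw [Pool.Agent.Y882.PX.ro_eq]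
        unfold rootCount
        simp only [Pool.Agent.V8H2.QW.FQ_eval]
        congr 3
        apply congrArg card
        apply filter_congr
        intro n _
        rw [show (-1 : ℤ) * (n : ℤ) ^ 2 + 0 * n + N = (N : ℤ) - (n : ℤ) ^ 2 by ring]
      have e2 : Pool.Agent.V8H2.QW.apc (-1) 0 (N : ℤ) r ((X : ℝ) ^ (1 / 8 : ℝ)) M ≤
          representations N r ((X : ℝ) ^ (1 / 8 : ℝ)) M := by
        unfold Pool.Agent.V8H2.QW.apc representations
        apply card_le_card
        intro m hm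
        rw [mem_filter, mem_Icc] at hm ⊢
        obtain ⟨⟨hm1, hm2⟩, hm3, hm4, hm5⟩ := hm
        have h3 : m ^ 2 ≤ M ^ 2 := Nat.pow_le_pow_left hm2 2
        have h4 : ((-1 : ℤ) * (m : ℤ) ^ 2 + 0 * m + N).natAbs = N - m ^ 2 := by
          have : (-1 : ℤ) * (m : ℤ) ^ 2 + 0 * m + N = ((N - m ^ 2 : ℕ) : ℤ) := by
            push_cast [Nat.cast_sub (show m ^ 2 ≤ N by omega)]
            ring
          rw [this, Int.natAbs_natCast]
        rw [h4] at hm3 hm4 hm5
        exact ⟨⟨hm1, hm2⟩, by omega, hm4, hm5⟩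
      have e2r : (Pool.Agent.V8H2.QW.apc (-1) 0 (N : ℤ) r ((X : ℝ) ^ (1 / 8 : ℝ)) M : ℝ) ≤
          representations N r ((X : ℝ) ^ (1 / 8 : ℝ)) M := by exact_mod_cast e2
      rw [mul_assoc, ← e1]
      exact lt_of_le_of_lt e2r hN3
    · intro x _ y _ hxy
      have h' : (x : ℤ) = (y : ℤ) := hxy
      exact_mod_cast h'
  exact_mod_cast h2

end Pool.Agent.Results.MP_d48457_nt.SmallSquarePlusAlmostPrime
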