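import Mathlib
import Pool.Agent.V8H54.RS.Fin

/-!
# Almost all integers are sums of a prime and a small square, with the expected number of representations

1. Let `ε, δ > 0`. For `X` large and `X^(1/6+ε) ≤ y ≤ √X`, for all but at most `δ X` of the `n ≤ X` with
`y² ≤ n`, the singular series `S(n) = ∏_{p > 2} (1 - (n/p) / (p - 1))` converges to a positive number and the
number of the `m ≤ y` for which `n - m²` is a prime is `S(n) y / log X`, with a relative error at most `δ`.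

2. For every `ε > 0` almost all `n` are of the form `n = p + m²` with `p` prime and `1 ≤ m ≤ n^(1/6+ε)`.

Proof. By the transference theorem of project TR (V8H34/TR: Plancherel, Weyl differencing and the large sieve
over windows of all lengths, with the gain of a logarithm for sifted sets), applied to the set of the negatives
of the primes, the number of representations is for almost all `n` close to the sum over `m ≤ y` of the
frequency of the primes in the progression `n - m² - W j`, `j ≤ κ y²`, `W` a large constant. These local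
averages are evaluated by the theorem on primes in almost all short intervals of length `X^(1/3+ε)`, with
characters, of project CR (V8H34/CR), and the singular series is compared with its partial products for
almost all `n` by the large sieve and the starting library (R460, Y868, W468).
-/

set_option autoImplicit false

namespace Pool.Agent.Results.MP_d48457_nt.SmallSquares

open Finset Filter Topology

/-- the number of the `m`, `1 ≤ m ≤ y`, for which `n - m²` is a prime (the difference of natural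
numbers, which is `0` if `m² > n`) -/
def count (n y : ℕ) : ℕ := #((Icc 1 y).filter (fun m : ℕ => (n - m ^ 2).Prime))

/-- the partial products of the singular series: the product of `1 - (n/p) / (p - 1)`, with the symbol of
Legendre, over the primes `3 ≤ p ≤ z` -/
noncomputable def partialSeries (n z : ℕ) : ℝ :=
  ∏ p ∈ (Icc 3 z).filter Nat.Prime, (1 - (jacobiSym (n : ℤ) p : ℝ) / (p - 1))

/-- `S` is the value of the singular series, and positive -/
def IsSeries (n : ℕ) (S : ℝ) : Prop := 0 < S ∧ Tendsto (fun z : ℕ => partialSeries n z) atTop (𝓝 S)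

open Classical in
/-- the number of the `n ≤ X` which are not of the form `p + m²` with `p` a prime and
`1 ≤ m ≤ n^(1/6+ε)` -/
noncomputable def exceptions (ε : ℝ) (X : ℕ) : ℕ :=
  #((Icc 1 X).filter (fun n : ℕ => ¬ ∃ p m : ℕ, p.Prime ∧ 1 ≤ m ∧
    (m : ℝ) ≤ (n : ℝ) ^ (1 / 6 + ε) ∧ n = p + m ^ 2))

theorem rep_count (n y : ℕ) : Pool.Agent.V8H54.RS.Rep Set.univ n y = count n y := by
  unfold Pool.Agent.V8H54.RS.Rep count
  simp_rw [Pool.Agent.V8H54.RS.fQ_univ]
  rw [← sum_filter, sum_const, nsmul_eq_mul, mul_one]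

/-- the first part -/
theorem part1 (ε : ℝ) (hε : 0 < ε) (δ : ℝ) (hδ : 0 < δ) :
    ∃ X₀ : ℕ, ∀ X : ℕ, X₀ ≤ X → ∀ y : ℕ, (X : ℝ) ^ (1 / 6 + ε) ≤ y → y ^ 2 ≤ X →
      ∃ Bad ⊆ Icc 1 X, (#Bad : ℝ) ≤ δ * X ∧ ∀ n ∈ Icc 1 X, n ∉ Bad → y ^ 2 ≤ n →
        ∃ S : ℝ, IsSeries n S ∧
          |(count n y : ℝ) - S * (y / Real.log X)| ≤ δ * (S * (y / Real.log X)) := by
  obtain ⟨X₀, h⟩ := eventually_atTop.1 (Pool.Agent.V8H54.RS.final (1 / 6 + ε) (by linarith)
    (min δ 1) (by positivity) (min_le_right _ _))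
  refine ⟨max X₀ 2, fun X hX y hy1 hy2 => ?_⟩
  obtain ⟨Bad, hB, hBc, h1⟩ := h X ((le_max_left _ _).trans hX) y hy1 hy2
  refine ⟨Bad, hB, hBc.trans ?_, fun n hn hnB hny => ?_⟩
  · have : (0 : ℝ) ≤ X := Nat.cast_nonneg _
    gcongr
    exact min_le_left _ _
  · obtain ⟨-, S, hS0, hS, hS1⟩ := h1 n hn hnB hny
    refine ⟨S, ⟨hS0, hS⟩, ?_⟩
    rw [← rep_count]
    refine hS1.trans ?_
    have hX2 : 2 ≤ X := (le_max_right _ _).trans hX
    have hlogX : 0 < Real.log X := Real.log_pos (by exact_mod_cast (by omega : 1 < X))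
    gcongr
    exact min_le_left _ _

/-- the second part -/
theorem part2 (ε : ℝ) (hε : 0 < ε) (δ : ℝ) (hδ : 0 < δ) :
    ∃ X₀ : ℕ, ∀ X : ℕ, X₀ ≤ X → (exceptions ε X : ℝ) ≤ δ * X := by
  classical
  set e : ℝ := min ε (1 / 4) with he
  have he0 : 0 < e := by positivity
  have he1 : e ≤ 1 / 4 := min_le_right _ _
  have heε : e ≤ ε := min_le_left _ _
  set d : ℝ := min (δ / 2) (1 / 2) with hd
  have hd0 : 0 < d := by positivity
  have hd1 : d ≤ 1 / 2 := min_le_right _ _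
  have hdδ : d ≤ δ / 2 := min_le_left _ _
  obtain ⟨X₁, h1⟩ := part1 (e / 2) (by positivity) d hd0
  obtain ⟨X₂, h2⟩ := eventually_atTop.1 ((Pool.Agent.V8H54.RS.ev_rp (2 / d) (by positivity : 0 < e / 2)).and
    (Pool.Agent.V8H54.RS.ev_rp (4 / d) (by norm_num : (0 : ℝ) < 1 / 4)))
  refine ⟨max (max X₁ X₂) 2, fun X hX => ?_⟩
  have hX1 : X₁ ≤ X := (le_max_left _ _).trans ((le_max_left _ _).trans hX)
  have hX2 : X₂ ≤ X := (le_max_right _ _).trans ((le_max_left _ _).trans hX)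
  have hX3 : 2 ≤ X := (le_max_right _ _).trans hX
  obtain ⟨hXe, hXq⟩ := h2 X hX2
  have hX0 : (0 : ℝ) < X := by
    have : 0 < X := by omega
    exact_mod_cast this
  have hX1R : (1 : ℝ) ≤ X := by exact_mod_cast (by omega : 1 ≤ X)
  have hlogX : 0 < Real.log X := Real.log_pos (by exact_mod_cast (by omega : 1 < X))
  rw [div_le_iff₀ hd0] at hXe hXq
  set y : ℕ := ⌈(X : ℝ) ^ (1 / 6 + e / 2)⌉₊ with hy
  have hXθ1 : 1 ≤ (X : ℝ) ^ (1 / 6 + e / 2) := Real.one_le_rpow hX1R (by positivity)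
  have hy1 : (X : ℝ) ^ (1 / 6 + e / 2) ≤ y := Nat.le_ceil _
  have hyu : (y : ℝ) ≤ 2 * (X : ℝ) ^ (1 / 6 + e / 2) := by
    have := (Nat.ceil_lt_add_one (by positivity : 0 ≤ (X : ℝ) ^ (1 / 6 + e / 2))).le
    rw [← hy] at this
    linarith
  have hysq : (y : ℝ) ^ 2 ≤ d * X := by
    have h3 : ((X : ℝ) ^ (1 / 6 + e / 2)) ^ 2 ≤ (X : ℝ) ^ (3 / 4 : ℝ) := by
      rw [← Real.rpow_natCast, ← Real.rpow_mul hX0.le]
      apply Real.rpow_le_rpow_of_exponent_le hX1R
      push_cast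
      linarith
    have h4 : (X : ℝ) ^ (3 / 4 : ℝ) * (X : ℝ) ^ (1 / 4 : ℝ) = X := by
      rw [← Real.rpow_add hX0]
      norm_num
    have h5 : 0 < (X : ℝ) ^ (3 / 4 : ℝ) := by positivity
    calc (y : ℝ) ^ 2 ≤ (2 * (X : ℝ) ^ (1 / 6 + e / 2)) ^ 2 := by gcongr
      _ = 4 * ((X : ℝ) ^ (1 / 6 + e / 2)) ^ 2 := by ring
      _ ≤ ((X : ℝ) ^ (1 / 4 : ℝ) * d) * (X : ℝ) ^ (3 / 4 : ℝ) := by gcongr
      _ = d * ((X : ℝ) ^ (3 / 4 : ℝ) * (X : ℝ) ^ (1 / 4 : ℝ)) := by ring
      _ = d * X := by rw [h4]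
  have hy2 : y ^ 2 ≤ X := by
    have : (y : ℝ) ^ 2 ≤ X := by nlinarith
    exact_mod_cast this
  obtain ⟨Bad, hB, hBc, h3⟩ := h1 X hX1 y hy1 hy2
  have hsub : (Icc 1 X).filter (fun n : ℕ => ¬ ∃ p m : ℕ, p.Prime ∧ 1 ≤ m ∧
      (m : ℝ) ≤ (n : ℝ) ^ (1 / 6 + ε) ∧ n = p + m ^ 2) ⊆ Bad ∪ Icc 1 ⌊d * X⌋₊ := by
    intro n hn
    rw [mem_filter] at hn
    rw [mem_union]
    by_contra hcon
    rw [not_or] at hcon
    obtain ⟨hnB, hnd⟩ := hcon
    have hn' := mem_Icc.1 hn.1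
    have hndX : d * X < n := by
      rw [mem_Icc, not_and] at hnd
      have := hnd hn'.1
      push Not at this
      exact (Nat.floor_lt (by positivity)).1 this
    have hny : y ^ 2 ≤ n := by
      have : (y : ℝ) ^ 2 ≤ n := hysq.trans hndX.le
      exact_mod_cast this
    obtain ⟨S, ⟨hS0, -⟩, hS⟩ := h3 n hn.1 hnB hny
    have hy0 : (0 : ℝ) < y := by linarith
    have hcnt : (0 : ℝ) < count n y := by
      rw [abs_le] at hS
      have h5 : 0 < S * (y / Real.log X) := by positivity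
      nlinarith [hS.1]
    have hcnt' : 0 < count n y := by exact_mod_cast hcnt
    obtain ⟨m, hm⟩ := card_pos.1 hcnt'
    rw [mem_filter, mem_Icc] at hm
    apply hn.2
    have hnm : m ^ 2 < n := by
      by_contra h
      have h6 : n - m ^ 2 = 0 := by omega
      rw [h6] at hm
      exact Nat.not_prime_zero hm.2
    refine ⟨n - m ^ 2, m, hm.2, hm.1.1, ?_, by omega⟩
    have hm1 : (m : ℝ) ≤ y := by exact_mod_cast hm.1.2
    have hn0 : (0 : ℝ) < n := by
      have : 0 < n := by omega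
      exact_mod_cast this
    have hn1R : (1 : ℝ) ≤ n := by exact_mod_cast hn'.1
    calc (m : ℝ) ≤ y := hm1
      _ ≤ 2 * (X : ℝ) ^ (1 / 6 + e / 2) := hyu
      _ ≤ ((X : ℝ) ^ (e / 2) * d) * (X : ℝ) ^ (1 / 6 + e / 2) := by gcongr
      _ = d * ((X : ℝ) ^ (e / 2) * (X : ℝ) ^ (1 / 6 + e / 2)) := by ring
      _ = d * (X : ℝ) ^ (1 / 6 + e) := by
          rw [← Real.rpow_add hX0]
          congr 2
          ring
      _ ≤ d ^ (1 / 6 + e) * (X : ℝ) ^ (1 / 6 + e) := by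
          gcongr
          calc d = d ^ (1 : ℝ) := (Real.rpow_one d).symm
            _ ≤ d ^ (1 / 6 + e) := Real.rpow_le_rpow_of_exponent_ge hd0 (by linarith) (by linarith)
      _ = (d * X) ^ (1 / 6 + e) := (Real.mul_rpow hd0.le hX0.le).symm
      _ ≤ (n : ℝ) ^ (1 / 6 + e) := by gcongr
      _ ≤ (n : ℝ) ^ (1 / 6 + ε) := Real.rpow_le_rpow_of_exponent_le hn1R (by linarith)
  have hc : (exceptions ε X : ℝ) ≤ (#Bad : ℝ) + (⌊d * X⌋₊ : ℝ) := by
    have h5 : exceptions ε X ≤ #(Bad ∪ Icc 1 ⌊d * X⌋₊) := by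
      unfold exceptions
      refine card_le_card (le_trans (le_of_eq ?_) hsub)
      apply filter_congr_decidable
    have h6 := card_union_le Bad (Icc 1 ⌊d * X⌋₊)
    rw [Nat.card_Icc, Nat.add_sub_cancel] at h6
    exact_mod_cast h5.trans h6
  have h7 : (⌊d * X⌋₊ : ℝ) ≤ d * X := Nat.floor_le (by positivity)
  have h8 : d * (X : ℝ) ≤ δ / 2 * X := by gcongr
  linarith

/-- **Sums of a prime and a small square.** (1) The expected number of representations for almost all `n`,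
for `X^(1/6+ε) ≤ y ≤ √X`. (2) Almost all `n` are sums of a prime and the square of a positive integer
`m ≤ n^(1/6+ε)`. -/
theorem result (ε : ℝ) (hε : 0 < ε) (δ : ℝ) (hδ : 0 < δ) :
    (∃ X₀ : ℕ, ∀ X : ℕ, X₀ ≤ X → ∀ y : ℕ, (X : ℝ) ^ (1 / 6 + ε) ≤ y → y ^ 2 ≤ X →
      ∃ Bad ⊆ Icc 1 X, (#Bad : ℝ) ≤ δ * X ∧ ∀ n ∈ Icc 1 X, n ∉ Bad → y ^ 2 ≤ n →
        ∃ S : ℝ, IsSeries n S ∧
          |(count n y : ℝ) - S * (y / Real.log X)| ≤ δ * (S * (y / Real.log X))) ∧
    ∃ X₀ : ℕ, ∀ X : ℕ, X₀ ≤ X → (exceptions ε X : ℝ) ≤ δ * X :=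
  ⟨part1 ε hε δ hδ, part2 ε hε δ hδ⟩

end Pool.Agent.Results.MP_d48457_nt.SmallSquares
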